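import Pool.Agent.K3h44.RQ.Stm2

/-!
# Project RQ2, brick FLO
-/

set_option autoImplicit false

namespace Pool.Agent.K3h85.RQ

open Pool.Agent.K3h44.RQ

theorem dsc_ge {d : ℕ} (hd : 1 < d) : 5 ≤ dsc d := by
  unfold dsc
  split_ifs with h
  · omega
  · omega

/-- the carry -/
theorem carry {m a t : ℕ} (ha : a + 1 < m) (ht : t < m) (hc : t.Coprime m) :
    (a + 1) * t / m = a * t / m + if m < t + a * t % m then 1 else 0 := by
  have hm : 0 < m := by omega
  have h1 : (a + 1) * t = (t + a * t % m) + m * (a * t / m) := by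
    have h2 := Nat.div_add_mod (a * t) m
    calc (a + 1) * t = t + a * t := by ring
      _ = t + (m * (a * t / m) + a * t % m) := by rw [h2]
      _ = _ := by ring
  have h3 : a * t % m < m := Nat.mod_lt _ hm
  rw [h1, Nat.add_mul_div_left _ _ hm, add_comm]
  congr 1
  split_ifs with h
  · rw [Nat.div_eq_iff hm]
    constructor <;> omega
  · have h4 : t + a * t % m ≠ m := by
      intro h5
      have h6 : m ∣ (a + 1) * t := by
        rw [h1, h5]
        exact Dvd.intro (1 + a * t / m) (by ring)
      have h7 : m ∣ a + 1 := (Nat.Coprime.dvd_of_dvd_mul_right hc.symm h6)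
      have h8 := Nat.le_of_dvd (Nat.succ_pos a) h7
      omega
    exact Nat.div_eq_of_lt (by omega)

theorem t_FLO : S_FLO := by
  intro d p hd _ hp hp2 _ hT
  have hD := dsc_ge hd
  have hp3 : 3 ≤ p := by
    have := hp.two_le
    omega
  set m : ℕ := p * dsc d with hm
  have hDm : dsc d < m := by
    rw [hm]
    nlinarith
  let G : ℕ → ZMod p := fun a => ∑ t ∈ (Finset.range m).filter (fun t => t.Coprime m),
    ((chi d t : ℤ) : ZMod p) * ((a * t / m : ℕ) : ZMod p) * (t : ZMod p)⁻¹
  let S : ℕ → ZMod p := fun a => ∑ t ∈ (Finset.range m).filter (fun t => t.Coprime m ∧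
      m < t + (a * t) % m), ((chi d t : ℤ) : ZMod p) * (t : ZMod p)⁻¹
  have hS : ∀ a < dsc d, S a = G (a + 1) - G a := by
    intro a ha
    simp only [S, G]
    rw [← Finset.sum_sub_distrib, ← Finset.filter_filter, Finset.sum_filter]
    refine Finset.sum_congr rfl fun t ht => ?_
    rw [Finset.mem_filter, Finset.mem_range] at ht
    rw [carry (by omega) ht.1 ht.2]
    split_ifs
    · push_cast
      ring
    · push_cast
      ring
  have h1 : ∑ a ∈ Finset.range (dsc d), S a = TT d p := by
    rw [Finset.sum_congr rfl fun a ha => hS a (Finset.mem_range.mp ha), Finset.sum_range_sub]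
    have h2 : G 0 = 0 := by
      simp only [G]
      exact Finset.sum_eq_zero fun t _ => by simp
    rw [h2, sub_zero]
    unfold TT
    refine Finset.sum_congr rfl fun t _ => ?_
    have h3 : dsc d * t / m = t / p := by
      rw [hm, mul_comm p, Nat.mul_div_mul_left _ _ (by omega)]
    rw [h3]
  rw [← h1] at hT
  obtain ⟨a, ha, h2⟩ := Finset.exists_ne_zero_of_sum_ne_zero hT
  rw [Finset.mem_range] at ha
  refine ⟨a, ?_, by omega, h2⟩
  by_contra h0
  apply h2
  have h3 : a = 0 := by omega
  simp only [S]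
  rw [h3]
  refine Finset.sum_eq_zero fun t ht => ?_
  rw [Finset.mem_filter, Finset.mem_range] at ht
  exfalso
  have h4 := ht.2.2
  rw [zero_mul, Nat.zero_mod] at h4
  omega

end Pool.Agent.K3h85.RQ
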