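import Pool.Agent.K3h44.RQ.Stm2

/-!
# Project RQ2, brick LEO: the congruence of Leopoldt modulo `p ^ 2`
-/

set_option autoImplicit false

open scoped BigOperators

namespace Pool.Agent.K3h85.RQ.Leo

open Pool.Agent.K3h44.RQ NumberField

/-! ### elementary identities -/

/-- the coefficients of `((1 - Z) ^ p - (1 - Z ^ p)) / p` -/
def cc (p k : ℕ) : ℤ := (-1) ^ k * ((p.choose k / p : ℕ) : ℤ)

theorem cc_mul {p k : ℕ} (hp : p.Prime) (h0 : 0 < k) (h1 : k < p) :
    (p : ℤ) * cc p k = (-1) ^ k * (p.choose k : ℤ) := by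
  unfold cc
  obtain ⟨a, ha⟩ := hp.dvd_choose_self h0.ne' h1
  rw [ha, Nat.mul_div_cancel_left _ hp.pos]
  push_cast
  ring

theorem choose_pred {p : ℕ} (hp : p.Prime) (j : ℕ) (hj : j < p) :
    (((p - 1).choose j : ℕ) : ZMod p) = (-1) ^ j := by
  induction j with
  | zero => simp
  | succ j ih =>
    have h1 := ih (by omega)
    have h2 : (p - 1).choose j + (p - 1).choose (j + 1) = p.choose (j + 1) := by
      have h3 := Nat.choose_succ_succ (p - 1) j
      rw [Nat.succ_eq_add_one, Nat.sub_add_cancel hp.one_le] at h3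
      exact h3.symm
    have h3 : ((p.choose (j + 1) : ℕ) : ZMod p) = 0 := by
      rw [ZMod.natCast_eq_zero_iff]
      exact hp.dvd_choose_self (Nat.succ_ne_zero j) hj
    rw [← h2] at h3
    push_cast at h3
    rw [h1] at h3
    rw [pow_succ]
    linear_combination h3

theorem cc_mod {p k : ℕ} (hp : p.Prime) (h0 : 0 < k) (h1 : k < p) :
    ((cc p k : ℤ) : ZMod p) * (k : ZMod p) = -1 := by
  obtain ⟨a, ha⟩ := hp.dvd_choose_self h0.ne' h1
  have h2 : a * k = (p - 1).choose (k - 1) := by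
    have h3 := Nat.add_one_mul_choose_eq (p - 1) (k - 1)
    rw [Nat.sub_add_cancel hp.one_le, Nat.sub_add_cancel h0, ha, mul_assoc] at h3
    exact (Nat.eq_of_mul_eq_mul_left hp.pos h3).symm
  have h3 : cc p k = (-1) ^ k * (a : ℤ) := by
    unfold cc
    rw [ha, Nat.mul_div_cancel_left _ hp.pos]
  have h4 := congrArg (Nat.cast (R := ZMod p)) h2
  rw [choose_pred hp (k - 1) (by omega)] at h4
  push_cast at h4
  rw [h3]
  push_cast
  rw [mul_assoc, h4, ← pow_add]
  have h5 : k + (k - 1) = 2 * (k - 1) + 1 := by omega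
  rw [h5, pow_succ, pow_mul]
  simp

section ring

variable {R : Type*} [CommRing R]

/-- the polynomial `E` -/
def EE (p : ℕ) (Z : R) : R := ∑ k ∈ Finset.Ico 1 p, (cc p k : R) * Z ^ k

theorem one_sub_pow {p : ℕ} (hp : p.Prime) (hp2 : p ≠ 2) (Z : R) :
    (1 - Z) ^ p = (1 - Z ^ p) + p * EE p Z := by
  have hodd : Odd p := hp.odd_of_ne_two hp2
  have h1 : (1 - Z) ^ p = ∑ k ∈ Finset.range (p + 1), (-Z) ^ k * (p.choose k : R) := by
    rw [sub_eq_neg_add, add_pow]
    simp
  have h2 : ∀ k ∈ Finset.Ico 1 p, (-Z) ^ k * (p.choose k : R) = p * ((cc p k : R) * Z ^ k) := by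
    intro k hk
    rw [Finset.mem_Ico] at hk
    have h3 := congrArg (Int.cast (R := R)) (cc_mul hp hk.1 hk.2)
    push_cast at h3
    rw [neg_pow, ← mul_assoc, h3]
    ring
  rw [h1, Finset.sum_range_succ, Finset.range_eq_Ico, Finset.sum_eq_sum_Ico_succ_bot hp.pos,
    Finset.sum_congr rfl h2, ← Finset.mul_sum, hodd.neg_pow]
  unfold EE
  simp
  ring

/-- the polynomial `F` -/
def FF (D : ℕ) (W : R) : R := -∑ r ∈ Finset.range D, (r : R) * W ^ r

theorem mul_FF {D : ℕ} {W : R} (h0 : W ^ D = 1) (h1 : ∑ r ∈ Finset.range D, W ^ r = 0) :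
    (1 - W) * FF D W = D := by
  have h2 : ∀ n : ℕ, (1 - W) * ∑ r ∈ Finset.range n, (r : R) * W ^ r =
      (∑ r ∈ Finset.range n, W ^ r) - 1 - ((n : R) - 1) * W ^ n := by
    intro n
    induction n with
    | zero => simp
    | succ n ih =>
      rw [Finset.sum_range_succ, Finset.sum_range_succ, mul_add, ih]
      push_cast
      ring
  unfold FF
  rw [mul_neg, h2, h1, h0]
  ring

/-- products modulo the square of `P` -/
theorem prod_mod {P D : R} (hP : P ^ 2 = 0) {U : Type*} (S : Finset U) (x : U → R) :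
    D * ∏ u ∈ S, (D + P * x u) = D ^ (S.card + 1) + P * D ^ S.card * ∑ u ∈ S, x u := by
  classical
  induction S using Finset.induction_on with
  | empty => simp
  | insert a S ha ih =>
    rw [Finset.prod_insert ha, Finset.sum_insert ha, Finset.card_insert_of_notMem ha]
    have h1 : D * ((D + P * x a) * ∏ u ∈ S, (D + P * x u)) =
        (D + P * x a) * (D * ∏ u ∈ S, (D + P * x u)) := by ring
    rw [h1, ih]
    linear_combination (D ^ S.card * x a * ∑ u ∈ S, x u) * hP

/-- the algebraic part of the computation, in a ring in which `P ^ 2 = 0` and `D` is a unit -/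
theorem alg {P D : R} (hP : P ^ 2 = 0) (hD : IsUnit D) {U : Type*} (S T : Finset U)
    (E F W Zp : U → R) (h1 : ∀ u, Zp u = W u + P * E u) (h2 : ∀ u, W u * F u = D)
    (h3 : P * (∑ u ∈ S, E u * F u - ∑ u ∈ T, E u * F u) = 0) :
    (∏ u ∈ S, Zp u) * ∏ u ∈ T, W u = (∏ u ∈ T, Zp u) * ∏ u ∈ S, W u := by
  have h4 : ∀ S : Finset U, D ^ (S.card + 1) * ∏ u ∈ S, Zp u =
      (∏ u ∈ S, W u) * (D ^ (S.card + 1) + P * D ^ S.card * ∑ u ∈ S, E u * F u) := by
    intro S
    rw [← prod_mod hP S, pow_succ, ← Finset.prod_const]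
    have h5 : (∏ _u ∈ S, D) * D * ∏ u ∈ S, Zp u = D * ∏ u ∈ S, (D * Zp u) := by
      rw [Finset.prod_mul_distrib]
      ring
    have h6 : (∏ u ∈ S, W u) * (D * ∏ u ∈ S, (D + P * (E u * F u))) =
        D * ∏ u ∈ S, (W u * (D + P * (E u * F u))) := by
      rw [Finset.prod_mul_distrib]
      ring
    rw [h5, h6]
    congr 1
    refine Finset.prod_congr rfl fun u _ => ?_
    rw [h1 u]
    linear_combination (-P * E u) * h2 u
  have h5 := h4 S
  have h6 := h4 T
  have h7 : IsUnit (D ^ (S.card + T.card + 2)) := hD.pow _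
  apply h7.mul_left_cancel
  have e1 : D ^ (S.card + T.card + 2) * ((∏ u ∈ S, Zp u) * ∏ u ∈ T, W u) =
      D ^ (T.card + 1) * (D ^ (S.card + 1) * ∏ u ∈ S, Zp u) * ∏ u ∈ T, W u := by
    have : S.card + T.card + 2 = (T.card + 1) + (S.card + 1) := by ring
    rw [this, pow_add]
    ring
  have e2 : D ^ (S.card + T.card + 2) * ((∏ u ∈ T, Zp u) * ∏ u ∈ S, W u) =
      D ^ (S.card + 1) * (D ^ (T.card + 1) * ∏ u ∈ T, Zp u) * ∏ u ∈ S, W u := by
    have : S.card + T.card + 2 = (S.card + 1) + (T.card + 1) := by ring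
    rw [this, pow_add]
    ring
  rw [e1, e2, h5, h6]
  linear_combination (D ^ (S.card + T.card + 1) * (∏ u ∈ S, W u) * ∏ u ∈ T, W u) * h3

end ring

/-! ### the integer sum -/

/-- the character, extended by zero -/
def XX (d n : ℕ) : ℤ := if n.Coprime (dsc d) then chi d n else 0

theorem sum_split {M : Type*} [AddCommMonoid M] (p D : ℕ) (hp : 0 < p) (f : ℕ → M) :
    ∑ t ∈ Finset.range (p * D), f t =
      ∑ k ∈ Finset.range p, ∑ r ∈ Finset.range D, f (k + p * r) := by
  rw [← Finset.sum_product']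
  refine Finset.sum_nbij' (fun t => (t % p, t / p)) (fun x => x.1 + p * x.2) ?_ ?_ ?_ ?_ ?_
  · intro t ht
    rw [Finset.mem_range] at ht
    rw [Finset.mem_product, Finset.mem_range, Finset.mem_range]
    exact ⟨Nat.mod_lt _ hp, Nat.div_lt_of_lt_mul ht⟩
  · rintro ⟨k, r⟩ hx
    rw [Finset.mem_product, Finset.mem_range, Finset.mem_range] at hx
    rw [Finset.mem_range]
    dsimp only at hx ⊢
    have h1 : r + 1 ≤ D := hx.2
    nlinarith [Nat.mul_le_mul_left p h1]
  · intro t _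
    exact Nat.mod_add_div t p
  · rintro ⟨k, r⟩ hx
    rw [Finset.mem_product, Finset.mem_range, Finset.mem_range] at hx
    dsimp only at hx ⊢
    rw [Nat.add_mul_mod_self_left, Nat.mod_eq_of_lt hx.1, Nat.add_mul_div_left _ _ hp,
      Nat.div_eq_of_lt hx.1, zero_add]
  · intro t _
    dsimp only
    rw [Nat.mod_add_div]

theorem int_sum {d p : ℕ} (hp : p.Prime) (hT : TT d p = 0) :
    (p : ℤ) ∣ ∑ k ∈ Finset.Ico 1 p, ∑ r ∈ Finset.range (dsc d),
      cc p k * (r : ℤ) * XX d (k + p * r) := by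
  have : Fact p.Prime := ⟨hp⟩
  rw [← ZMod.intCast_zmod_eq_zero_iff_dvd]
  have h1 : ((∑ k ∈ Finset.Ico 1 p, ∑ r ∈ Finset.range (dsc d),
      cc p k * (r : ℤ) * XX d (k + p * r) : ℤ) : ZMod p) = -TT d p := by
    unfold TT
    rw [Finset.sum_filter, sum_split p (dsc d) hp.pos, Finset.range_eq_Ico (a := p),
      Finset.sum_eq_sum_Ico_succ_bot hp.pos]
    have h2 : ∑ r ∈ Finset.range (dsc d), (if (0 + p * r).Coprime (p * dsc d) then
        ((chi d (0 + p * r) : ℤ) : ZMod p) * (((0 + p * r) / p : ℕ) : ZMod p) *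
          ((0 + p * r : ℕ) : ZMod p)⁻¹ else 0) = 0 := by
      refine Finset.sum_eq_zero fun r _ => ?_
      rw [if_neg]
      intro h
      have h3 := Nat.eq_one_of_dvd_coprimes h (Dvd.intro r (by ring)) (Dvd.intro _ rfl)
      exact hp.one_lt.ne' h3
    rw [h2, zero_add]
    push_cast
    rw [← Finset.sum_neg_distrib]
    refine Finset.sum_congr rfl fun k hk => ?_
    rw [Finset.mem_Ico] at hk
    rw [← Finset.sum_neg_distrib]
    refine Finset.sum_congr rfl fun r _ => ?_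
    have hkp : (k + p * r).Coprime p := by
      rw [Nat.coprime_comm, hp.coprime_iff_not_dvd]
      intro h
      have h3 := (Nat.dvd_add_left (Dvd.intro r rfl)).mp h
      have h4 := Nat.le_of_dvd hk.1 h3
      omega
    have hk0 : (k : ZMod p) ≠ 0 := by
      intro h
      rw [ZMod.natCast_eq_zero_iff] at h
      have h4 := Nat.le_of_dvd hk.1 h
      omega
    unfold XX
    by_cases hc : (k + p * r).Coprime (dsc d)
    · rw [if_pos hc, if_pos (Nat.Coprime.mul_right hkp hc)]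
      have h3 : (k + p * r) / p = r := by
        rw [Nat.add_mul_div_left _ _ hp.pos, Nat.div_eq_of_lt hk.2, zero_add]
      have h4 := cc_mod hp hk.1 hk.2
      have h5 : ((cc p k : ℤ) : ZMod p) = -(k : ZMod p)⁻¹ := by
        rw [eq_neg_iff_add_eq_zero]
        field_simp
        linear_combination h4
      rw [h3, h5]
      simp
      ring
    · rw [if_neg hc, if_neg (fun h => hc (Nat.Coprime.coprime_mul_left_right h))]
      simp
  rw [h1, hT, neg_zero]

/-! ### the character sums -/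

section char

variable {d : ℕ} [NeZero (dsc d)]

omit [NeZero (dsc d)] in
theorem chi_three (t : ℕ) : chi d t = 0 ∨ chi d t = 1 ∨ chi d t = -1 := by
  unfold chi
  split_ifs
  · exact jacobiSym.trichotomy _ _
  · exact jacobiSym.trichotomy _ _

omit [NeZero (dsc d)] in
theorem inv_chi {χ : DirichletCharacter ℂ (dsc d)}
    (hχ : ∀ t : ℕ, t.Coprime (dsc d) → χ (t : ZMod (dsc d)) = ((chi d t : ℤ) : ℂ)) (n : ℕ) :
    χ⁻¹ (n : ZMod (dsc d)) = ((XX d n : ℤ) : ℂ) := by
  rw [MulChar.inv_apply_eq_inv']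
  unfold XX
  split_ifs with h
  · rw [hχ n h]
    rcases chi_three (d := d) n with h1 | h1 | h1 <;> rw [h1] <;> norm_num
  · rw [MulChar.map_nonunit _ (fun h1 => h ((ZMod.isUnit_iff_coprime n _).mp h1))]
    simp

theorem unit_val (u : (ZMod (dsc d))ˣ) : (((u : ZMod (dsc d)).val : ℕ) : ZMod (dsc d)) = u :=
  ZMod.natCast_zmod_val _

theorem chi_unit {χ : DirichletCharacter ℂ (dsc d)}
    (hχ : ∀ t : ℕ, t.Coprime (dsc d) → χ (t : ZMod (dsc d)) = ((chi d t : ℤ) : ℂ))
    (u : (ZMod (dsc d))ˣ) :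
    chi d (u : ZMod (dsc d)).val = 1 ∨ chi d (u : ZMod (dsc d)).val = -1 := by
  have h1 := hχ _ (ZMod.val_coe_unit_coprime u)
  rcases chi_three (d := d) (u : ZMod (dsc d)).val with h | h
  · exfalso
    rw [h, unit_val, Int.cast_zero] at h1
    have h2 : IsUnit (χ (u : ZMod (dsc d))) := u.isUnit.map χ
    rw [h1] at h2
    exact not_isUnit_zero h2
  · exact h

theorem char_sum {L : Type} [Field L] [NumberField L] {z : L} (hz : z ^ dsc d = 1)
    {χ : DirichletCharacter ℂ (dsc d)} (hprim : χ.IsPrimitive)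
    (hχ : ∀ t : ℕ, t.Coprime (dsc d) → χ (t : ZMod (dsc d)) = ((chi d t : ℤ) : ℂ)) (n : ℕ) :
    ∑ u : (ZMod (dsc d))ˣ, ((chi d (u : ZMod (dsc d)).val : ℤ) : L) *
        (z ^ (u : ZMod (dsc d)).val) ^ n =
      ((XX d n : ℤ) : L) * ∑ u : (ZMod (dsc d))ˣ, ((chi d (u : ZMod (dsc d)).val : ℤ) : L) *
        z ^ (u : ZMod (dsc d)).val := by
  obtain ⟨φ⟩ : Nonempty (L →+* ℂ) := inferInstance
  apply φ.injective
  have hζ : φ z ^ dsc d = 1 := by rw [← map_pow, hz, map_one]
  have h1 : ∀ n : ℕ, φ (∑ u : (ZMod (dsc d))ˣ, ((chi d (u : ZMod (dsc d)).val : ℤ) : L) *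
      (z ^ (u : ZMod (dsc d)).val) ^ n) =
        gaussSum χ ((AddChar.zmodChar (dsc d) hζ).mulShift (n : ZMod (dsc d))) := by
    intro n
    rw [map_sum]
    unfold gaussSum
    refine Fintype.sum_of_injective (fun u : (ZMod (dsc d))ˣ => (u : ZMod (dsc d)))
      Units.val_injective _ _ ?_ ?_
    · intro a ha
      rw [MulChar.map_nonunit _ (fun h => ha ⟨h.unit, h.unit_spec⟩), zero_mul]
    · intro u
      have h2 : (n : ZMod (dsc d)) * (u : ZMod (dsc d)) =
          (((u : ZMod (dsc d)).val * n : ℕ) : ZMod (dsc d)) := by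
        rw [Nat.cast_mul, unit_val, mul_comm]
      have h3 := hχ _ (ZMod.val_coe_unit_coprime u)
      rw [unit_val] at h3
      rw [AddChar.mulShift_apply, h2, AddChar.zmodChar_apply', map_mul, map_intCast, map_pow,
        map_pow, ← pow_mul, h3]
  have h2 := h1 1
  simp only [pow_one] at h2
  rw [h1, map_mul, map_intCast, h2, gaussSum_mulShift_of_isPrimitive _ hprim,
    gaussSum_mulShift_of_isPrimitive _ hprim, inv_chi hχ, inv_chi hχ]
  have h3 : XX d 1 = 1 := by
    unfold XX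
    rw [if_pos (Nat.coprime_one_left _)]
    unfold chi
    split_ifs <;> simp
  rw [h3, Int.cast_one, one_mul]

end char

/-- the sum of the products `E F` -/
theorem EF_sum {R : Type*} [CommRing R] {d p : ℕ} [NeZero (dsc d)] (z : R)
    (hz : ∀ n : ℕ, ∑ u : (ZMod (dsc d))ˣ, ((chi d (u : ZMod (dsc d)).val : ℤ) : R) *
        (z ^ (u : ZMod (dsc d)).val) ^ n =
      ((XX d n : ℤ) : R) * ∑ u : (ZMod (dsc d))ˣ, ((chi d (u : ZMod (dsc d)).val : ℤ) : R) *
        z ^ (u : ZMod (dsc d)).val) :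
    ∑ u : (ZMod (dsc d))ˣ, ((chi d (u : ZMod (dsc d)).val : ℤ) : R) *
        (EE p (z ^ (u : ZMod (dsc d)).val) * FF (dsc d) ((z ^ (u : ZMod (dsc d)).val) ^ p)) =
      -(((∑ k ∈ Finset.Ico 1 p, ∑ r ∈ Finset.range (dsc d),
        cc p k * (r : ℤ) * XX d (k + p * r) : ℤ) : R) *
        ∑ u : (ZMod (dsc d))ˣ, ((chi d (u : ZMod (dsc d)).val : ℤ) : R) *
        z ^ (u : ZMod (dsc d)).val) := by
  have h1 : ∀ u : (ZMod (dsc d))ˣ, ((chi d (u : ZMod (dsc d)).val : ℤ) : R) *
      (EE p (z ^ (u : ZMod (dsc d)).val) * FF (dsc d) ((z ^ (u : ZMod (dsc d)).val) ^ p)) =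
      -∑ k ∈ Finset.Ico 1 p, ∑ r ∈ Finset.range (dsc d), ((cc p k * (r : ℤ) : ℤ) : R) *
        (((chi d (u : ZMod (dsc d)).val : ℤ) : R) *
          (z ^ (u : ZMod (dsc d)).val) ^ (k + p * r)) := by
    intro u
    unfold EE FF
    rw [mul_neg, Finset.sum_mul_sum, mul_neg, Finset.mul_sum]
    congr 1
    refine Finset.sum_congr rfl fun k _ => ?_
    rw [Finset.mul_sum]
    refine Finset.sum_congr rfl fun r _ => ?_
    rw [pow_add, pow_mul _ p r]
    push_cast
    ring
  rw [Finset.sum_congr rfl fun u _ => h1 u, Finset.sum_neg_distrib, Finset.sum_comm]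
  congr 1
  rw [Int.cast_sum, Finset.sum_mul]
  refine Finset.sum_congr rfl fun k _ => ?_
  rw [Finset.sum_comm, Int.cast_sum, Finset.sum_mul]
  refine Finset.sum_congr rfl fun r _ => ?_
  rw [← Finset.mul_sum, hz]
  push_cast
  ring

theorem t_LEO (hP : S_PRIM) : S_LEO := by
  intro d p hd hsq _ hp hp2 hpD hT L _ _ c A B hA hB g hg
  obtain ⟨χ, hprim, -, -, hχ⟩ := hP d hd hsq
  have hD1 : 1 < dsc d := by
    unfold dsc
    split_ifs <;> omega
  set z : 𝓞 L := c.prim.toInteger with hz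
  have hzc : (z : L) = c.z := rfl
  have hzp : IsPrimitiveRoot z (dsc d) := c.prim.toInteger_isPrimitiveRoot
  have hcoe : Function.Injective (algebraMap (𝓞 L) L) := RingOfIntegers.coe_injective
  -- the character sums in the integers
  have hsum : ∀ n : ℕ, ∑ u : (ZMod (dsc d))ˣ, ((chi d (u : ZMod (dsc d)).val : ℤ) : 𝓞 L) *
        (z ^ (u : ZMod (dsc d)).val) ^ n =
      ((XX d n : ℤ) : 𝓞 L) * ∑ u : (ZMod (dsc d))ˣ,
        ((chi d (u : ZMod (dsc d)).val : ℤ) : 𝓞 L) * z ^ (u : ZMod (dsc d)).val := by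
    intro n
    apply hcoe
    rw [map_mul, map_sum, map_sum]
    simp only [map_mul, map_pow, map_intCast]
    exact char_sum c.prim.pow_eq_one hprim hχ n
  have hpT : (p : 𝓞 L) ∣ ∑ u : (ZMod (dsc d))ˣ, ((chi d (u : ZMod (dsc d)).val : ℤ) : 𝓞 L) *
      (EE p (z ^ (u : ZMod (dsc d)).val) *
        FF (dsc d) ((z ^ (u : ZMod (dsc d)).val) ^ p)) := by
    rw [EF_sum z hsum, dvd_neg]
    apply Dvd.dvd.mul_right
    have h1 := (Int.castRingHom (𝓞 L)).map_dvd (int_sum hp hT)
    simpa using h1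
  -- the products
  let S : ℤ → Finset (ZMod (dsc d))ˣ := fun e =>
    Finset.univ.filter (fun u : (ZMod (dsc d))ˣ => chi d (u : ZMod (dsc d)).val = e)
  have hprod : ∀ (e : ℤ) (X : 𝓞 L), (X : L) = PP c e →
      X = ∏ u ∈ S e, (1 - z ^ (u : ZMod (dsc d)).val) := by
    intro e X hX
    apply hcoe
    rw [map_prod]
    simp only [map_sub, map_one, map_pow]
    exact hX
  have hσ : rsM c g z = z ^ p := by
    apply hcoe
    rw [map_pow]
    change c.σ g c.z = c.z ^ p
    rw [c.σ_z, hg, ZMod.val_natCast, ← pow_eq_pow_mod _ c.prim.pow_eq_one]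
  have hrs : ∀ (e : ℤ) (X : 𝓞 L), X = ∏ u ∈ S e, (1 - z ^ (u : ZMod (dsc d)).val) →
      rsM c g X = ∏ u ∈ S e, (1 - (z ^ (u : ZMod (dsc d)).val) ^ p) := by
    intro e X hX
    rw [hX, map_prod]
    refine Finset.prod_congr rfl fun u _ => ?_
    rw [map_sub, map_one, map_pow, hσ, ← pow_mul, ← pow_mul, mul_comm p]
  have hA1 := hprod 1 A hA
  have hB1 := hprod (-1) B hB
  have hA2 := hrs 1 A hA1
  have hB2 := hrs (-1) B hB1
  -- the quotient modulo `p ^ 2`
  rw [← Ideal.mem_span_singleton, ← Ideal.Quotient.eq_zero_iff_mem, map_sub, sub_eq_zero]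
  set π := Ideal.Quotient.mk (Ideal.span {(p : 𝓞 L) ^ 2}) with hπ
  have hP2 : (π (p : 𝓞 L)) ^ 2 = 0 := by
    rw [← map_pow, hπ, Ideal.Quotient.eq_zero_iff_mem]
    exact Ideal.mem_span_singleton_self _
  have hDu : IsUnit (π (dsc d : 𝓞 L)) := by
    have h1 : IsCoprime ((dsc d : ℕ) : ℤ) ((p : ℤ) ^ 2) := by
      apply IsCoprime.pow_right
      exact Nat.isCoprime_iff_coprime.mpr ((hp.coprime_iff_not_dvd.mpr hpD).symm)
    obtain ⟨a, b, hab⟩ := h1
    have h2 := congrArg (fun x : ℤ => π ((x : ℤ) : 𝓞 L)) hab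
    simp only [Int.cast_add, Int.cast_mul, Int.cast_pow, Int.cast_natCast, Int.cast_one,
      map_add, map_mul, map_pow, map_one] at h2
    rw [hP2, mul_zero, add_zero] at h2
    exact IsUnit.of_mul_eq_one_right _ h2
  have key := alg (R := 𝓞 L ⧸ Ideal.span {(p : 𝓞 L) ^ 2}) (P := π p) (D := π (dsc d : 𝓞 L))
    hP2 hDu (S 1) (S (-1))
    (fun u => π (EE p (z ^ (u : ZMod (dsc d)).val)))
    (fun u => π (FF (dsc d) ((z ^ (u : ZMod (dsc d)).val) ^ p)))
    (fun u => π (1 - (z ^ (u : ZMod (dsc d)).val) ^ p))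
    (fun u => π ((1 - z ^ (u : ZMod (dsc d)).val) ^ p))
    (fun u => by rw [one_sub_pow hp hp2, map_add, map_mul])
    (fun u => by
      rw [← map_mul, mul_FF]
      · have h0 : ((z ^ (u : ZMod (dsc d)).val) ^ p) ^ dsc d =
            (z ^ dsc d) ^ ((u : ZMod (dsc d)).val * p) := by ring
        rw [h0, hzp.pow_eq_one, one_pow]
      · have h1 : IsPrimitiveRoot ((z ^ (u : ZMod (dsc d)).val) ^ p) (dsc d) := by
          rw [← pow_mul]
          exact hzp.pow_of_coprime _ (Nat.Coprime.mul_left (ZMod.val_coe_unit_coprime u)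
            (hp.coprime_iff_not_dvd.mpr hpD))
        exact h1.geom_sum_eq_zero hD1)
    (by
      have h1 : ∑ u ∈ S 1, EE p (z ^ (u : ZMod (dsc d)).val) *
            FF (dsc d) ((z ^ (u : ZMod (dsc d)).val) ^ p) -
          ∑ u ∈ S (-1), EE p (z ^ (u : ZMod (dsc d)).val) *
            FF (dsc d) ((z ^ (u : ZMod (dsc d)).val) ^ p) =
          ∑ u : (ZMod (dsc d))ˣ, ((chi d (u : ZMod (dsc d)).val : ℤ) : 𝓞 L) *
            (EE p (z ^ (u : ZMod (dsc d)).val) *
              FF (dsc d) ((z ^ (u : ZMod (dsc d)).val) ^ p)) := by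
        simp only [S]
        rw [Finset.sum_filter, Finset.sum_filter, ← Finset.sum_sub_distrib]
        refine Finset.sum_congr rfl fun u _ => ?_
        rcases chi_unit hχ u with h | h
        · rw [h]
          norm_num
        · rw [h]
          norm_num
      simp only [← map_mul, ← map_sum, ← map_sub]
      rw [h1, hπ, Ideal.Quotient.eq_zero_iff_mem, Ideal.mem_span_singleton, pow_two]
      exact mul_dvd_mul_left _ hpT)
  simp only [← map_prod, ← map_mul] at key
  rw [Finset.prod_pow, Finset.prod_pow, ← hA1, ← hB1, ← hA2, ← hB2] at key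
  exact key

end Pool.Agent.K3h85.RQ.Leo
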